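import Pool.Agent.P.MP_61d55c_co.MP.Lift

/-! Ten weakly antipodal directed points in dimension four, and doubling by prisms. -/

set_option autoImplicit false

namespace Pool.Agent.P.MP_61d55c_co.MP

open Matrix CR

/-- the integer dot product in dimension four -/
def dt (a b : Fin 4 → ℤ) : ℤ := a 0 * b 0 + a 1 * b 1 + a 2 * b 2 + a 3 * b 3

/-- an integer vector as a real one -/
def cs (a : Fin 4 → ℤ) : Fin 4 → ℝ := fun i => a i

lemma cs_dot (a b : Fin 4 → ℤ) : cs a ⬝ᵥ cs b = (dt a b : ℝ) := by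
  simp [cs, dt, dotProduct, Fin.sum_univ_four]

/-- the ten points -/
def P10 : Fin 10 → Fin 4 → ℤ :=
  ![![1, 0, 0, 1], ![-1, 0, 0, 1], ![0, 1, 0, 1], ![0, -1, 0, 1], ![1, 0, 0, -1], ![-1, 0, 0, -1],
    ![0, 1, 0, -1], ![0, -1, 0, -1], ![0, 0, 1, 0], ![0, 0, -1, 0]]

/-- the ten directions -/
def T10 : Fin 10 → Fin 4 → ℤ :=
  ![![0, 1, 1, 0], ![0, 1, -1, 0], ![1, 0, -1, 0], ![1, 0, 1, 0], ![0, 1, 1, 0], ![0, 1, -1, 0],
    ![1, 0, -1, 0], ![1, 0, 1, 0], ![0, 0, 0, 1], ![0, 0, 0, 1]]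

/-- the functionals -/
def F16 : Fin 16 → Fin 4 → ℤ :=
  ![![0, 0, 0, 1], ![0, 0, 0, -1], ![1, 0, 0, 0], ![-1, 0, 0, 0], ![0, 1, 0, 0], ![0, -1, 0, 0],
    ![0, 0, 1, 0], ![0, 0, -1, 0], ![1, 1, 1, 0], ![1, 1, -1, 0], ![1, -1, 1, 0], ![1, -1, -1, 0],
    ![-1, 1, 1, 0], ![-1, 1, -1, 0], ![-1, -1, 1, 0], ![-1, -1, -1, 0]]

lemma c1 : ∀ u v : Fin 10, u ≠ v → ∃ j : Fin 16, dt (F16 j) (T10 u) = 0 ∧
    dt (F16 j) (T10 v) = 0 ∧ dt (F16 j) (P10 v) = -1 ∧ dt (F16 j) (P10 u) = 1 := by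
  decide +kernel

lemma c2 : ∀ (j : Fin 16) (k : Fin 10), -1 ≤ dt (F16 j) (P10 k) ∧ dt (F16 j) (P10 k) ≤ 1 := by
  decide +kernel

lemma c3 : ∀ v : Fin 10, dt (P10 v) (T10 v) = 0 ∧
    (∀ k, k ≠ v → dt (P10 v) (P10 k) < dt (P10 v) (P10 v)) ∧
    ∃ j : Fin 16, dt (F16 j) (T10 v) = 1 := by
  decide +kernel

theorem w10 : Wk (fun k => cs (P10 k)) (fun k => cs (T10 k)) := by
  refine ⟨fun u v h => ?_, fun v => ⟨-cs (P10 v), ?_, fun k hk => ?_⟩, fun v => ?_⟩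
  · obtain ⟨j, h1, h2, h3, h4⟩ := c1 u v h
    refine ⟨cs (F16 j), ?_, ?_, ?_, fun k => ?_⟩
    all_goals simp only [cs_dot, h1, h2, h3, h4]
    · simp
    · simp
    · simp
    · exact_mod_cast c2 j k
  · simp [cs_dot, (c3 v).1]
  · simp only [neg_dotProduct, cs_dot, neg_lt_neg_iff]
    exact_mod_cast (c3 v).2.1 k hk
  · obtain ⟨j, h⟩ := (c3 v).2.2
    exact ⟨cs (F16 j), by simp [cs_dot, h]⟩

variable {e : ℕ} {Z : Type}

theorem Wk.dbl {p τ : Z → Fin e → ℝ} (H : Wk p τ) :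
    Wk (fun z : Z × Bool => (Fin.cons (sn z.2) (p z.1) : Fin (e + 1) → ℝ))
      (fun z => Fin.cons 0 (τ z.1)) := by
  refine ⟨fun ⟨u, b⟩ ⟨v, c⟩ h => ?_, fun ⟨v, c⟩ => ?_, fun ⟨v, c⟩ => ?_⟩
  · by_cases huv : u = v
    · have hb : b ≠ c := fun hb => h (by rw [huv, hb])
      refine ⟨Fin.cons (sn b) 0, by simp [cd], by simp [cd], ?_, fun ⟨k, f⟩ => ?_⟩
      · cases b <;> cases c <;> simp_all [cd, sn]
      · cases b <;> cases c <;> cases f <;> simp_all [cd, sn]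
    · obtain ⟨φ, h1, h2, h3, h4⟩ := H.pair u v huv
      exact ⟨Fin.cons 0 φ, by simp [cd, h1], by simp [cd, h2], by simp [cd, h3],
        fun k => by simpa [cd] using h4 k.1⟩
  · obtain ⟨ν, h1, h2⟩ := H.expo v
    refine ⟨Fin.cons (-sn c) ν, by simp [cd, h1], fun ⟨k, f⟩ hk => ?_⟩
    simp only [cd]
    by_cases hkv : k = v
    · have hb : f ≠ c := fun hb => hk (by rw [hkv, hb])
      rw [hkv]
      cases f <;> cases c <;> simp_all [sn]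
    · have := h2 k hkv
      cases f <;> cases c <;> simp only [sn, if_true, Bool.false_eq_true, if_false] <;> linarith
  · obtain ⟨χ, h⟩ := H.nz v
    exact ⟨Fin.cons 0 χ, by simp [cd, h]⟩

theorem many (m : ℕ) : ∃ (Z : Type) (_ : Fintype Z) (p τ : Z → Fin (4 + m) → ℝ),
    Fintype.card Z = 10 * 2 ^ m ∧ Wk p τ := by
  induction m with
  | zero => exact ⟨Fin 10, inferInstance, _, _, by simp, w10⟩
  | succ m ih =>
    obtain ⟨Z, _, p, τ, h1, h2⟩ := ih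
    exact ⟨Z × Bool, inferInstance, _, _, by simp [h1]; ring, h2.dbl⟩

end Pool.Agent.P.MP_61d55c_co.MP
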