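import Pool.Agent.P.MP_61d55c_co.MP.Dbl
import Pool.Agent.P.MP_61d55c_co.Main

/-! Many strictly antipodal clusters give the Turan number as a lower bound. -/

set_option autoImplicit false

namespace Pool.Agent.P.MP_61d55c_co.MP

open Matrix Filter Topology SimpleGraph

theorem lower' {n d : ℕ} (hn : d + 1 ≤ n) (G : SimpleGraph (Fin n)) (X : Fin n → Fin d → ℝ)
    (hG : ∀ x, ∃ y, G.Adj x y)
    (hX : ∀ x y, G.Adj x y → ∃ u : Fin d → ℝ,
      (∀ z, z ≠ x → u ⬝ᵥ X z < u ⬝ᵥ X x) ∧ ∀ z, z ≠ y → u ⬝ᵥ X y < u ⬝ᵥ X z) :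
    G.edgeSet.ncard ≤ e0 d n := by
  have : NeZero n := ⟨by omega⟩
  let E : Fin n → Fin d → ℝ := fun x i => if (x : ℕ) = i + 1 then 1 else 0
  let s : Fin d → Fin n := fun i => ⟨i + 1, by omega⟩
  let A : Matrix (Fin d) (Fin d) ℝ := Matrix.of fun i => X 0 - X (s i)
  have key : ∀ (u : Fin d → ℝ) x y, u ⬝ᵥ X x < u ⬝ᵥ X y →
      ∀ᶠ ε in 𝓝 (0 : ℝ), u ⬝ᵥ (X x + ε • E x) < u ⬝ᵥ (X y + ε • E y) := fun u x y h =>
    ContinuousAt.eventually_lt (by fun_prop) (by fun_prop) (by simpa using h)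
  have ev : ∀ᶠ ε in 𝓝 (0 : ℝ), ∀ x y, G.Adj x y → ∃ u : Fin d → ℝ,
      (∀ z, z ≠ x → u ⬝ᵥ (X z + ε • E z) < u ⬝ᵥ (X x + ε • E x)) ∧
      ∀ z, z ≠ y → u ⬝ᵥ (X y + ε • E y) < u ⬝ᵥ (X z + ε • E z) := by
    refine eventually_all.2 fun x => eventually_all.2 fun y =>
      eventually_imp_distrib_left.2 fun h => ?_
    obtain ⟨u, p, q⟩ := hX x y h
    filter_upwards [eventually_all.2 fun z => eventually_imp_distrib_left.2 fun hz =>
      key u z x (p z hz), eventually_all.2 fun z => eventually_imp_distrib_left.2 fun hz =>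
      key u y z (q z hz)] with ε a b using ⟨u, a, b⟩
  obtain ⟨ε, h1, h2⟩ := (infinite_of_mem_nhds 0 ev).exists_notMem_finite A.finite_spectrum
  refine lower G (fun x => X x + ε • E x) hG h1 fun u hu => ?_
  refine Matrix.mulVec_injective_of_isUnit (spectrum.notMem_iff.1 h2) (funext fun i => ?_)
  have h3 := hu (s i) 0
  have e1 : E (s i) = Pi.single i 1 := funext fun j => by
    simp [E, s, Pi.single_apply, Fin.ext_iff, eq_comm]
  have e2 : E 0 = 0 := funext fun j => by simp [E]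
  simp only [e1, e2, dotProduct_add, dotProduct_smul, dotProduct_single, dotProduct_zero,
    smul_eq_mul] at h3
  have e3 : (A *ᵥ u) i = u ⬝ᵥ X 0 - u ⬝ᵥ X (s i) := by
    rw [← dotProduct_sub, dotProduct_comm]; rfl
  rw [mulVec_zero, sub_mulVec, Algebra.algebraMap_eq_smul_one, smul_mulVec, one_mulVec,
    Pi.sub_apply, e3, Pi.smul_apply, smul_eq_mul, Pi.zero_apply]
  linarith

theorem turan (m n : ℕ) (hn : 4 + m + 1 + 1 ≤ n) :
    (turanGraph n (10 * 2 ^ m)).edgeSet.ncard ≤ e0 (4 + m + 1) n := by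
  obtain ⟨Z, _, p, τ, hc, H⟩ := many m
  obtain ⟨a, w, h⟩ := lift H
  have hK : 1 < 10 * 2 ^ m := by have := Nat.two_pow_pos m; omega
  let e := (Fintype.equivFinOfCardEq hc).symm
  obtain ⟨X, hX⟩ := sites (fun x : Fin n => e ⟨x % (10 * 2 ^ m), Nat.mod_lt _ (by omega)⟩) a w
    (fun i => cen a - a i) fun i j hij => by
      obtain ⟨y, ψ, ψ', h1, h2, h3, h4, h5, h6, h7, h8⟩ := h i j hij
      refine ⟨y, h1, h2, ?_, ?_, h3, h4, fun α β => ⟨α • ψ + β • ψ', by simp [h5, h7],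
        by simp [h6, h8]⟩⟩
      · rw [dotProduct_sub, sub_neg]
        exact cen_lt (fun k => (eq_or_ne k i).elim (fun q => by rw [q]) fun q => (h3 k q).le)
          (h3 j hij.symm)
      · rw [dotProduct_sub, sub_pos]
        exact lt_cen (fun k => (eq_or_ne k j).elim (fun q => by rw [q]) fun q => (h4 k q).le)
          (h4 i hij)
  refine lower' hn _ X (fun x => ?_) fun x y hxy => hX x y fun q => hxy ?_
  · by_cases hx : (x : ℕ) % (10 * 2 ^ m) = 0
    · exact ⟨⟨1, by omega⟩, by simp [turanGraph, hx, Nat.mod_eq_of_lt hK]⟩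
    · exact ⟨⟨0, by omega⟩, by simpa [turanGraph] using hx⟩
  · simpa using q

end Pool.Agent.P.MP_61d55c_co.MP
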