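import Pool.Agent.P.MP_61d55c_co.CR.A

/-! Weakly antipodal directed points give strictly antipodal ones in one more dimension. -/

set_option autoImplicit false

namespace Pool.Agent.P.MP_61d55c_co.MP

open Matrix Filter Topology Finset CR

variable {e : ℕ} {Z : Type}

/-- a weakly antipodal family of points with directions -/
structure Wk (p τ : Z → Fin e → ℝ) : Prop where
  pair : ∀ u v, u ≠ v → ∃ φ : Fin e → ℝ, φ ⬝ᵥ τ u = 0 ∧ φ ⬝ᵥ τ v = 0 ∧ φ ⬝ᵥ p v < φ ⬝ᵥ p u ∧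
    ∀ k, φ ⬝ᵥ p v ≤ φ ⬝ᵥ p k ∧ φ ⬝ᵥ p k ≤ φ ⬝ᵥ p u
  expo : ∀ v, ∃ ν : Fin e → ℝ, ν ⬝ᵥ τ v = 0 ∧ ∀ k, k ≠ v → ν ⬝ᵥ p v < ν ⬝ᵥ p k
  nz : ∀ v, ∃ χ : Fin e → ℝ, χ ⬝ᵥ τ v = 1

/-- a strictly antipodal pair with independent directions -/
def Gd (a w : Z → Fin e → ℝ) (u v : Z) : Prop :=
  ∃ y ψ ψ' : Fin e → ℝ, y ⬝ᵥ w u = 0 ∧ y ⬝ᵥ w v = 0 ∧ (∀ k, k ≠ u → y ⬝ᵥ a k < y ⬝ᵥ a u) ∧
    (∀ k, k ≠ v → y ⬝ᵥ a v < y ⬝ᵥ a k) ∧ ψ ⬝ᵥ w u = 1 ∧ ψ ⬝ᵥ w v = 0 ∧ ψ' ⬝ᵥ w u = 0 ∧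
    ψ' ⬝ᵥ w v = 1

lemma Gd.symm {a w : Z → Fin e → ℝ} {u v : Z} (h : Gd a w u v) : Gd a w v u := by
  obtain ⟨y, ψ, ψ', h1, h2, h3, h4, h5, h6, h7, h8⟩ := h
  exact ⟨-y, ψ', ψ, by simp [h2], by simp [h1], fun k hk => by simpa using h4 k hk,
    fun k hk => by simpa using h3 k hk, h8, h7, h6, h5⟩

lemma Gd.ev [Finite Z] {a w : ℝ → Z → Fin e → ℝ} (ha : ∀ k, Continuous fun β => a β k)
    (hw : ∀ k, Continuous fun β => w β k) {u v : Z} (h : Gd (a 0) (w 0) u v) :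
    ∀ᶠ β in 𝓝[>] (0 : ℝ), Gd (a β) (w β) u v := by
  obtain ⟨y, ψ, ψ', h1, h2, h3, h4, h5, h6, h7, h8⟩ := h
  let Δ : ℝ → ℝ := fun β => ψ ⬝ᵥ w β u * ψ' ⬝ᵥ w β v - ψ ⬝ᵥ w β v * ψ' ⬝ᵥ w β u
  let s : ℝ → Fin e → ℝ := fun β => (ψ' ⬝ᵥ w β v) • ψ - (ψ ⬝ᵥ w β v) • ψ'
  let t : ℝ → Fin e → ℝ := fun β => (ψ ⬝ᵥ w β u) • ψ' - (ψ' ⬝ᵥ w β u) • ψ
  let Y : ℝ → Fin e → ℝ := fun β => Δ β • y - (y ⬝ᵥ w β u) • s β - (y ⬝ᵥ w β v) • t β
  have cu := hw u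
  have cv := hw v
  have cΔ : Continuous Δ := by simp only [Δ]; fun_prop
  have cY : Continuous Y := by simp only [Y, s, t, Δ]; fun_prop
  have Y0 : Y 0 = y := by simp [Y, Δ, h1, h2, h5, h6, h7, h8]
  have key : ∀ k l, y ⬝ᵥ a 0 k < y ⬝ᵥ a 0 l → ∀ᶠ β in 𝓝[>] (0 : ℝ),
      Y β ⬝ᵥ a β k < Y β ⬝ᵥ a β l := fun k l hkl =>
    (ev_cont (g := fun β => Y β ⬝ᵥ a β l - Y β ⬝ᵥ a β k)
      ((cY.dotProduct (ha l)).sub (cY.dotProduct (ha k)))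
      (by simpa only [Y0, sub_pos] using hkl)).mono fun _ => sub_pos.1
  have e1 : ∀ᶠ β in 𝓝[>] (0 : ℝ), ∀ k, k ≠ u → Y β ⬝ᵥ a β k < Y β ⬝ᵥ a β u :=
    eventually_all.2 fun k => eventually_imp_distrib_left.2 fun hk => key _ _ (h3 k hk)
  have e2 : ∀ᶠ β in 𝓝[>] (0 : ℝ), ∀ k, k ≠ v → Y β ⬝ᵥ a β v < Y β ⬝ᵥ a β k :=
    eventually_all.2 fun k => eventually_imp_distrib_left.2 fun hk => key _ _ (h4 k hk)
  filter_upwards [e1, e2, ev_cont cΔ (by simp [Δ, h5, h6, h7, h8])] with β p q hΔ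
  have su : s β ⬝ᵥ w β u = Δ β := by simp only [s, Δ, sub_dotProduct, smul_dotProduct, smul_eq_mul]; ring
  have sv : s β ⬝ᵥ w β v = 0 := by simp only [s, sub_dotProduct, smul_dotProduct, smul_eq_mul]; ring
  have tu : t β ⬝ᵥ w β u = 0 := by simp only [t, sub_dotProduct, smul_dotProduct, smul_eq_mul]; ring
  have tv : t β ⬝ᵥ w β v = Δ β := by simp only [t, Δ, sub_dotProduct, smul_dotProduct, smul_eq_mul]; ring
  refine ⟨Y β, (Δ β)⁻¹ • s β, (Δ β)⁻¹ • t β, ?_, ?_, p, q, ?_, ?_, ?_, ?_⟩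
  · simp only [Y, sub_dotProduct, smul_dotProduct, smul_eq_mul, su, tu]; ring
  · simp only [Y, sub_dotProduct, smul_dotProduct, smul_eq_mul, sv, tv]; ring
  all_goals simp [su, sv, tu, tv, hΔ.ne']

/-- the centroid -/
noncomputable def cen [Fintype Z] (p : Z → Fin e → ℝ) : Fin e → ℝ :=
  (Fintype.card Z : ℝ)⁻¹ • ∑ k, p k

lemma cen_lt [Fintype Z] {p : Z → Fin e → ℝ} {φ : Fin e → ℝ} {M : ℝ} (h : ∀ k, φ ⬝ᵥ p k ≤ M)
    {v : Z} (hv : φ ⬝ᵥ p v < M) : φ ⬝ᵥ cen p < M := by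
  have : Nonempty Z := ⟨v⟩
  have h0 : (0 : ℝ) < Fintype.card Z := by exact_mod_cast Fintype.card_pos
  have h1 : ∑ k, φ ⬝ᵥ p k < ∑ _k : Z, M := sum_lt_sum (fun k _ => h k) ⟨v, mem_univ _, hv⟩
  rw [sum_const, card_univ, nsmul_eq_mul] at h1
  rw [cen, dotProduct_smul, dotProduct_sum, smul_eq_mul, inv_mul_lt_iff₀ h0]
  exact h1

lemma lt_cen [Fintype Z] {p : Z → Fin e → ℝ} {φ : Fin e → ℝ} {M : ℝ} (h : ∀ k, M ≤ φ ⬝ᵥ p k)
    {v : Z} (hv : M < φ ⬝ᵥ p v) : M < φ ⬝ᵥ cen p := by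
  have := cen_lt (φ := -φ) (M := -M) (p := p) (fun k => by simpa using h k) (v := v)
    (by simpa using hv)
  simpa using this

lemma cd (c h : ℝ) (α v : Fin e → ℝ) :
    (Fin.cons c α : Fin (e + 1) → ℝ) ⬝ᵥ Fin.cons h v = c * h + α ⬝ᵥ v := by
  simp [dotProduct, Fin.sum_univ_succ]

lemma cont_cons {f : ℝ → ℝ} {g : ℝ → Fin e → ℝ} (hf : Continuous f) (hg : Continuous g) :
    Continuous fun β => (Fin.cons (f β) (g β) : Fin (e + 1) → ℝ) :=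
  continuous_pi fun i => Fin.cases (by simpa using hf)
    (fun i => by simp only [Fin.cons_succ]; exact (continuous_apply i).comp hg) i

/-- the invariant: the points of `T` have been moved -/
structure Inv [Fintype Z] (p τ : Z → Fin e → ℝ) (T : Finset Z) (a w : Z → Fin (e + 1) → ℝ) :
    Prop where
  out : ∀ z, z ∉ T → a z = Fin.cons 0 (p z) ∧ w z = Fin.cons 0 (τ z)
  ins : ∀ z ∈ T, ∃ h s : ℝ, 0 < s ∧ s ≤ 1 ∧ a z = Fin.cons h (p z - s • (p z - cen p))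
  gd : ∀ u ∈ T, ∀ v, v ≠ u → Gd a w u v

lemma step [Fintype Z] [DecidableEq Z] {p τ : Z → Fin e → ℝ} (H : Wk p τ) {T : Finset Z}
    {a w : Z → Fin (e + 1) → ℝ} (h : Inv p τ T a w) {u : Z} (hu : u ∉ T) :
    ∃ a' w', Inv p τ (insert u T) a' w' := by
  let A : ℝ → Z → Fin (e + 1) → ℝ := fun β k =>
    if k = u then Fin.cons β (p u - β ^ 2 • (p u - cen p)) else a k
  let W : ℝ → Z → Fin (e + 1) → ℝ := fun β k =>
    if k = u then Fin.cons β (τ u - (3 * β ^ 2) • (p u - cen p)) else w k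
  have cA : ∀ k, Continuous fun β => A β k := fun k => by
    by_cases hk : k = u
    · simp only [A, if_pos hk]; exact cont_cons continuous_id (by fun_prop)
    · simp only [A, if_neg hk]; exact continuous_const
  have cW : ∀ k, Continuous fun β => W β k := fun k => by
    by_cases hk : k = u
    · simp only [W, if_pos hk]; exact cont_cons continuous_id (by fun_prop)
    · simp only [W, if_neg hk]; exact continuous_const
  have A0 : A 0 = a := funext fun k => by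
    by_cases hk : k = u
    · simp [A, hk, (h.out u hu).1]
    · simp [A, hk]
  have W0 : W 0 = w := funext fun k => by
    by_cases hk : k = u
    · simp [W, hk, (h.out u hu).2]
    · simp [W, hk]
  have old : ∀ t ∈ T, ∀ v, v ≠ t → ∀ᶠ β in 𝓝[>] (0 : ℝ), Gd (A β) (W β) t v := fun t ht v hv =>
    Gd.ev cA cW (by rw [A0, W0]; exact h.gd t ht v hv)
  have new : ∀ v, v ≠ u → v ∉ T → ∀ᶠ β in 𝓝[>] (0 : ℝ), Gd (A β) (W β) u v := by
    intro v hv hvT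
    obtain ⟨φ, f1, f2, f3, f4⟩ := H.pair u v hv.symm
    obtain ⟨ν, n1, n2⟩ := H.expo v
    obtain ⟨χ, hχ⟩ := H.nz v
    have o1 : φ ⬝ᵥ cen p < φ ⬝ᵥ p u := cen_lt (fun k => (f4 k).2) f3
    have o2 : φ ⬝ᵥ p v < φ ⬝ᵥ cen p := lt_cen (fun k => (f4 k).1) f3
    obtain ⟨γ, g1, g0⟩ : ∃ γ : ℝ, (∀ k, 0 < 2 * (φ ⬝ᵥ p u - φ ⬝ᵥ cen p) +
        γ * (ν ⬝ᵥ p u - ν ⬝ᵥ p k - ν ⬝ᵥ τ u)) ∧ 0 < γ :=
      ((eventually_all.2 fun k => ev_cont (g := fun γ => 2 * (φ ⬝ᵥ p u - φ ⬝ᵥ cen p) +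
        γ * (ν ⬝ᵥ p u - ν ⬝ᵥ p k - ν ⬝ᵥ τ u)) (by fun_prop) (by simpa using o1)).and
        self_mem_nhdsWithin).exists
    let c : ℝ → ℝ := fun β => 3 * (φ ⬝ᵥ p u - φ ⬝ᵥ cen p) - γ * ν ⬝ᵥ τ u +
      3 * β ^ 2 * γ * (ν ⬝ᵥ p u - ν ⬝ᵥ cen p)
    let Y : ℝ → Fin (e + 1) → ℝ := fun β => Fin.cons (β * c β) (φ + (β ^ 2 * γ) • ν)
    have cY : Continuous Y := cont_cons (by simp only [c]; fun_prop) (by fun_prop)
    have key : ∀ k l, Y 0 ⬝ᵥ a k < Y 0 ⬝ᵥ a l → ∀ᶠ β in 𝓝[>] (0 : ℝ),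
        Y β ⬝ᵥ A β k < Y β ⬝ᵥ A β l := fun k l hkl =>
      (ev_cont (g := fun β => Y β ⬝ᵥ A β l - Y β ⬝ᵥ A β k)
        ((cY.dotProduct (cA l)).sub (cY.dotProduct (cA k)))
        (by simpa only [A0, sub_pos] using hkl)).mono fun _ => sub_pos.1
    have y0 : ∀ (h : ℝ) x, Y 0 ⬝ᵥ Fin.cons h x = φ ⬝ᵥ x := fun h x => by simp [Y, cd]
    have mid : ∀ k ∈ T, φ ⬝ᵥ p v < Y 0 ⬝ᵥ a k ∧ Y 0 ⬝ᵥ a k < φ ⬝ᵥ p u := fun k hk => by
      obtain ⟨h', s, s0, s1, ea⟩ := h.ins k hk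
      rw [ea, y0, dotProduct_sub, dotProduct_smul, dotProduct_sub, smul_eq_mul]
      have k1 := mul_nonneg (sub_nonneg.2 s1) (sub_nonneg.2 (f4 k).1)
      have k2 := mul_nonneg (sub_nonneg.2 s1) (sub_nonneg.2 (f4 k).2)
      have k3 := mul_pos s0 (sub_pos.2 o1)
      have k4 := mul_pos s0 (sub_pos.2 o2)
      constructor <;> nlinarith
    have yo : ∀ β k, k ≠ u → k ∉ T → Y β ⬝ᵥ A β k = φ ⬝ᵥ p k + β ^ 2 * (γ * ν ⬝ᵥ p k) := by
      intro β k hk hT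
      simp only [A, if_neg hk, (h.out k hT).1, Y, cd, add_dotProduct, smul_dotProduct, smul_eq_mul]
      ring
    have e1 : ∀ᶠ β in 𝓝[>] (0 : ℝ), ∀ k, k ≠ u → Y β ⬝ᵥ A β k < Y β ⬝ᵥ A β u := by
      refine eventually_all.2 fun k => eventually_imp_distrib_left.2 fun hk => ?_
      by_cases hT : k ∈ T
      · exact key _ _ (by rw [(h.out u hu).1, y0]; exact (mid k hT).2)
      · filter_upwards [ev2 (2 * γ * (ν ⬝ᵥ p u - ν ⬝ᵥ cen p))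
          (.inr ⟨sub_nonneg.2 (f4 k).2, g1 k⟩)] with β hβ
        rw [yo β k hk hT]
        simp only [A, if_true, Y, c, cd, add_dotProduct, smul_dotProduct, dotProduct_sub,
          dotProduct_smul, smul_eq_mul]
        linarith
    have e2 : ∀ᶠ β in 𝓝[>] (0 : ℝ), ∀ k, k ≠ v → Y β ⬝ᵥ A β v < Y β ⬝ᵥ A β k := by
      refine eventually_all.2 fun k => eventually_imp_distrib_left.2 fun hk => ?_
      by_cases hT : k ∈ T
      · exact key _ _ (by rw [(h.out v hvT).1, y0]; exact (mid k hT).1)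
      by_cases hku : k = u
      · exact key _ _ (by rw [hku, (h.out v hvT).1, (h.out u hu).1, y0, y0]; exact f3)
      · filter_upwards [ev2 0
          (.inr ⟨sub_nonneg.2 (f4 k).1, mul_pos g0 (sub_pos.2 (n2 k hk))⟩)] with β hβ
        rw [yo β k hku hT, yo β v hv hvT]
        linarith
    filter_upwards [e1, e2, self_mem_nhdsWithin] with β q1 q2 hβ
    have hβ' : β ≠ 0 := ne_of_gt hβ
    refine ⟨Y β, Fin.cons β⁻¹ 0,
      Fin.cons (-(β⁻¹ * χ ⬝ᵥ (τ u - (3 * β ^ 2) • (p u - cen p)))) χ, ?_, ?_, q1, q2, ?_, ?_, ?_, ?_⟩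
    · simp only [W, if_true, Y, c, cd, add_dotProduct, smul_dotProduct, dotProduct_sub,
        dotProduct_smul, smul_eq_mul, f1]
      ring
    · simp [W, hv, (h.out v hvT).2, Y, cd, f2, n1]
    · simp [W, cd, hβ']
    · simp [W, hv, (h.out v hvT).2, cd]
    · simp only [W, if_true, cd]; field_simp; ring
    · simp [W, hv, (h.out v hvT).2, cd, hχ]
  have all : ∀ᶠ β in 𝓝[>] (0 : ℝ), ∀ t ∈ insert u T, ∀ v, v ≠ t → Gd (A β) (W β) t v := by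
    refine eventually_all.2 fun t => eventually_imp_distrib_left.2 fun ht =>
      eventually_all.2 fun v => eventually_imp_distrib_left.2 fun hv => ?_
    rcases mem_insert.1 ht with rfl | ht
    · by_cases hT : v ∈ T
      · exact (old v hT t hv.symm).mono fun _ => Gd.symm
      · exact new v hv hT
    · exact old t ht v hv
  obtain ⟨β, ⟨q1, q2⟩, q3⟩ := ((all.and (ev_cont (g := fun β => 1 - β ^ 2) (by fun_prop)
    (by simp))).and self_mem_nhdsWithin).exists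
  have q4 : 0 < β := q3
  refine ⟨A β, W β, fun z hz => ?_, fun z hz => ?_, q1⟩
  · rw [mem_insert, not_or] at hz
    simpa only [A, W, if_neg hz.1] using h.out z hz.2
  · by_cases hk : z = u
    · exact ⟨β, β ^ 2, by positivity, by linarith, by simp only [A, hk, if_true]⟩
    · simpa only [A, if_neg hk] using h.ins z ((mem_insert.1 hz).resolve_left hk)

theorem lift [Fintype Z] {p τ : Z → Fin e → ℝ} (H : Wk p τ) :
    ∃ a w : Z → Fin (e + 1) → ℝ, ∀ u v, u ≠ v → Gd a w u v := by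
  classical
  have : ∀ T : Finset Z, ∃ a w, Inv p τ T a w := fun T => by
    induction T using Finset.induction_on with
    | empty => exact ⟨_, _, fun _ _ => ⟨rfl, rfl⟩, by simp, by simp⟩
    | insert u T hu ih => obtain ⟨a, w, h⟩ := ih; exact step H h hu
  obtain ⟨a, w, h⟩ := this univ
  exact ⟨a, w, fun u v huv => h.gd u (mem_univ _) v huv.symm⟩

end Pool.Agent.P.MP_61d55c_co.MP
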